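import Pool.Agent.H82.KT.TR
import Pool.Agent.H54.HDS.TDAa
import Pool.Agent.H81.HDS.Lib

/-!
MP_ee74d2_an, theorem KT, row SHW: the weights of a tube in a shading class.
-/

set_option autoImplicit false

namespace Pool.Agent.H55.KTN

open MeasureTheory Set
open Pool.Agent.H83.G Pool.Agent.H82.HD Pool.Agent.H82.KT
open Pool.Agent.H22.G (co)
open scoped ENNReal NNReal RealInnerProductSpace

open scoped Classical in
/-- sums of the sizes of the fibres -/
theorem sum_fib {α : Type} (QQ : Finset α) (p : α → Prop) (f : α → ℤ) (P : ℤ → Prop) :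
    ∑ u ∈ (QQ.image f).filter P, ((QQ.filter (fun q => p q ∧ f q = u)).card : ℝ) =
      ((QQ.filter (fun q => p q ∧ P (f q))).card : ℝ) := by
  rw [← Nat.cast_sum]
  congr 1
  rw [Finset.card_eq_sum_card_fiberwise (f := f) (s := QQ.filter (fun q => p q ∧ P (f q)))
    (t := (QQ.image f).filter P)]
  · refine Finset.sum_congr rfl fun u hu => ?_
    congr 1
    rw [Finset.filter_filter]
    apply Finset.filter_congr
    intro q _
    have hP := (Finset.mem_filter.1 hu).2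
    constructor
    · rintro ⟨h1, h2⟩
      exact ⟨⟨h1, by rw [h2]; exact hP⟩, h2⟩
    · rintro ⟨⟨h1, -⟩, h2⟩
      exact ⟨h1, h2⟩
  · intro q hq
    have hq' := Finset.mem_filter.1 (Finset.mem_coe.1 hq)
    exact Finset.mem_coe.2 (Finset.mem_filter.2 ⟨Finset.mem_image_of_mem f hq'.1, hq'.2.2⟩)

open scoped Classical in
/-- a tube in a shading class has many cubes in balls of the class -/
theorem cubes_lower' {m : ℕ} (QQ : Finset (Zi m)) (R r δ : ℝ) (l k : ℕ) (T : Pk m) (B : Zi m)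
    (h : Sh QQ R r δ l k T B) :
    2 ^ (l + k) ≤ (QQ.filter (fun q => Inc R δ T q ∧ Sh QQ R r δ l k T (bl R r q))).card := by
  obtain ⟨-, h1, -⟩ := TEN.sh_counts QQ R r δ l k T B h
  set F := (QQ.image (bl R r)).filter (fun B' => Sh QQ R r δ l k T B') with hF
  have h2 : (F.biUnion (fun B' => QQ.filter (fun q => bl R r q = B' ∧ Inc R δ T q))).card =
      ∑ B' ∈ F, (QQ.filter (fun q => bl R r q = B' ∧ Inc R δ T q)).card := by
    refine Finset.card_biUnion ?_
    intro x _ y _ hxy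
    rw [Function.onFun, Finset.disjoint_left]
    intro q hq hq'
    rw [Finset.mem_filter] at hq hq'
    exact hxy (hq.2.1.symm.trans hq'.2.1)
  have h3 : F.biUnion (fun B' => QQ.filter (fun q => bl R r q = B' ∧ Inc R δ T q)) ⊆
      QQ.filter (fun q => Inc R δ T q ∧ Sh QQ R r δ l k T (bl R r q)) := by
    intro q hq
    obtain ⟨B', hB', hq'⟩ := Finset.mem_biUnion.1 hq
    rw [hF, Finset.mem_filter] at hB'
    rw [Finset.mem_filter] at hq' ⊢
    refine ⟨hq'.1, hq'.2.2, ?_⟩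
    rw [hq'.2.1]
    exact hB'.2
  have h4 : F.card * 2 ^ l ≤ ∑ B' ∈ F,
      (QQ.filter (fun q => bl R r q = B' ∧ Inc R δ T q)).card := by
    rw [← smul_eq_mul]
    refine Finset.card_nsmul_le_sum _ _ _ (fun B' hB' => ?_)
    exact (TEN.sh_counts QQ R r δ l k T B' (Finset.mem_filter.1 hB').2).1.1
  calc 2 ^ (l + k) = 2 ^ k * 2 ^ l := by rw [pow_add, mul_comm]
    _ ≤ F.card * 2 ^ l := Nat.mul_le_mul_right _ h1
    _ ≤ _ := h4
    _ = _ := h2.symm
    _ ≤ _ := Finset.card_le_card h3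

open scoped Classical in
theorem pf_SHW (hWIN : T_WIN) (hPRJ : T_PRJ) (hCBN : T_CBN) : T_SHW := by
  intro m
  obtain ⟨CW, hCW, hW⟩ := hWIN m
  obtain ⟨C₁, hC₁, hP⟩ := hPRJ m
  obtain ⟨-, -, CB, hCB, hc, -⟩ := hCBN m
  refine ⟨max (CB * C₁ ^ (m + 2)) (16 * CW), ?_, ?_⟩
  · exact le_max_of_le_right (by linarith)
  intro R T δ ε₀ z₀ Tu QQ l k hR hδ hε hδε hT hz hz' hTu hQ hk hB
  have hR0 : 0 < R := by linarith
  have hsq : 0 < Real.sqrt R := Real.sqrt_pos.2 hR0
  have hone : 1 ≤ R ^ (2 * δ) := Real.one_le_rpow hR (by linarith)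
  obtain ⟨-, hP2⟩ := hP R T δ z₀ hR hδ hT hz hz'
  -- the total weight
  have tot : ∑ u ∈ QQ.image (uq R T), wg QQ R T δ ε₀ l k Tu u =
      ((QQ.filter (fun q => Inc R δ Tu q ∧
        Sh QQ R (R ^ (1 - ε₀)) δ l k Tu (bl R (R ^ (1 - ε₀)) q))).card : ℝ) := by
    have := sum_fib QQ (fun q => Inc R δ Tu q ∧
      Sh QQ R (R ^ (1 - ε₀)) δ l k Tu (bl R (R ^ (1 - ε₀)) q)) (uq R T) (fun _ => True)
    simp only [Finset.filter_true, and_true] at this
    refine Eq.trans (Finset.sum_congr rfl fun u _ => ?_) (this.trans ?_)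
    · unfold wg
      congr
    · congr
  have low : (2 : ℝ) ^ (l + k) ≤ ∑ u ∈ QQ.image (uq R T), wg QQ R T δ ε₀ l k Tu u := by
    obtain ⟨B, hB⟩ := hB
    rw [tot]
    exact_mod_cast cubes_lower' QQ R (R ^ (1 - ε₀)) δ l k Tu B hB
  refine ⟨fun u => ⟨Nat.cast_nonneg _, ?_⟩, low, fun v => ?_⟩
  · unfold wg
    set G := QQ.filter (fun q => (Inc R δ Tu q ∧
      Sh QQ R (R ^ (1 - ε₀)) δ l k Tu (bl R (R ^ (1 - ε₀)) q)) ∧ uq R T q = u) with hG
    have hbd : (G.card : ℝ) ≤ CB * (C₁ * R ^ (2 * δ)) ^ (m + 2) := by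
      rcases G.eq_empty_or_nonempty with h0 | ⟨q, hq⟩
      · rw [h0]
        simp only [Finset.card_empty, Nat.cast_zero]
        positivity
      · rw [hG, Finset.mem_filter] at hq
        refine hc (C₁ * R ^ (2 * δ)) (zc q) _ (by nlinarith) ?_
        intro q' hq'
        rw [hG, Finset.mem_filter] at hq'
        have h1 := ((hP2 q' q (hQ q' hq'.1) (hQ q hq.1)).2 Tu hTu hq'.2.1.1 hq.2.1.1).2
          (hq'.2.2.trans hq.2.2.symm)
        unfold Pool.Agent.H22.G.co at h1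
        rw [← smul_sub, norm_smul, Real.norm_eq_abs, abs_of_pos hsq, Real.rpow_add hR0,
          ← Real.sqrt_eq_rpow] at h1
        have h2 : Real.sqrt R * ‖zc q' - zc q‖ ≤ Real.sqrt R * (C₁ * R ^ (2 * δ)) := by
          refine h1.trans (le_of_eq ?_)
          ring
        exact le_of_mul_le_mul_left h2 hsq
    have hexp : CB * (C₁ * R ^ (2 * δ)) ^ (m + 2) =
        CB * C₁ ^ (m + 2) * R ^ (2 * ((m : ℝ) + 2) * δ) := by
      rw [mul_pow, ← mul_assoc]
      congr 1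
      rw [← Real.rpow_natCast, ← Real.rpow_mul hR0.le]
      congr 1
      push_cast
      ring
    rw [hexp] at hbd
    exact hbd.trans (mul_le_mul_of_nonneg_right (le_max_left _ _) (Real.rpow_nonneg hR0.le _))
  · have h1 := sum_fib QQ (fun q => Inc R δ Tu q ∧
      Sh QQ R (R ^ (1 - ε₀)) δ l k Tu (bl R (R ^ (1 - ε₀)) q)) (uq R T)
      (fun u : ℤ => |((u : ℝ) - v)| ≤ Real.sqrt R * R ^ (-ε₀))
    have h2 := hW R T δ ε₀ v z₀ Tu QQ l k hR hδ hε hδε hT hz hz' hTu hQ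
    simp only [and_assoc] at h1
    have h3 : ∑ u ∈ (QQ.image (uq R T)).filter
        (fun u : ℤ => |((u : ℝ) - v)| ≤ Real.sqrt R * R ^ (-ε₀)), wg QQ R T δ ε₀ l k Tu u ≤
        CW * 2 ^ l := by
      refine le_trans (le_of_eq ?_) h2
      rw [← h1]
      refine Finset.sum_congr rfl fun u _ => ?_
      unfold wg
      simp only [and_assoc]
    have h4 : 16 * CW ≤ (2 : ℝ) ^ k := (le_max_right _ _).trans hk
    have h5 : (0 : ℝ) < 2 ^ l := by positivity
    calc 16 * ∑ u ∈ (QQ.image (uq R T)).filter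
          (fun u : ℤ => |((u : ℝ) - v)| ≤ Real.sqrt R * R ^ (-ε₀)), wg QQ R T δ ε₀ l k Tu u
        ≤ 16 * (CW * 2 ^ l) := by linarith
      _ = (16 * CW) * 2 ^ l := by ring
      _ ≤ 2 ^ k * 2 ^ l := by nlinarith
      _ = 2 ^ (l + k) := by rw [pow_add, mul_comm]
      _ ≤ _ := low

end Pool.Agent.H55.KTN
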